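import Pool.Agent.Helper66K9.CH.Two

/-!
Library Helper66K9.CH (helper66): linear statistics of the blocks of the Liouville function.
-/

set_option autoImplicit false

namespace Pool.Agent.Helper66K9.CH

open Finset
open Pool.Agent.Y958.U (LZ LZ_bdd)
open Pool.Agent.Y842.EL (LZ_mono LZ_union LZ_empty)

/-- the linear statistic with weights `w` on the window `J`, at the point `m` -/
noncomputable def stat (w : ℕ → ℝ) (J : Finset ℕ) (m : ℕ) : ℝ := ∑ j ∈ J, w j * l (m + j)

/-- the diagonal contribution -/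
noncomputable def corr (a b : ℕ) (I J : Finset ℕ) (u w : ℕ → ℝ) : ℝ :=
  l a * l b * ∑ i ∈ I, ∑ j ∈ J, if b * i = a * j then u i * w j else 0

lemma stat_abs (w : ℕ → ℝ) (J : Finset ℕ) (m : ℕ) : |stat w J m| ≤ ∑ j ∈ J, |w j| := by
  unfold stat
  refine (abs_sum_le_sum_abs _ _).trans (sum_le_sum fun j _ => ?_)
  rw [abs_mul, l_abs, mul_one]

lemma stat_small {A : ℕ} (hA : 1 ≤ A) (w : ℕ → ℝ) (J : Finset ℕ) : Small (fun m => stat w J (A * m)) :=
  Small.sum J (fun j m => w j * l (A * m + j)) fun j _ => (mean j hA).const_mul (w j)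

lemma corr_abs (a b : ℕ) (I J : Finset ℕ) (u w : ℕ → ℝ) :
    |corr a b I J u w| ≤ (∑ i ∈ I, |u i|) * ∑ j ∈ J, |w j| := by
  unfold corr
  rw [abs_mul, abs_mul, l_abs, l_abs, one_mul, one_mul, sum_mul_sum]
  refine (abs_sum_le_sum_abs _ _).trans (sum_le_sum fun i _ => ?_)
  refine (abs_sum_le_sum_abs _ _).trans (sum_le_sum fun j _ => ?_)
  split_ifs
  · rw [abs_mul]
  · rw [abs_zero]; positivity

theorem prod_small {a b : ℕ} (ha : 1 ≤ a) (hb : 1 ≤ b) (I J : Finset ℕ) (u w : ℕ → ℝ) :
    Small (fun m => stat u I (a * m) * stat w J (b * m) - corr a b I J u w) := by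
  have h1 : Small (fun m => ∑ i ∈ I, ∑ j ∈ J, if b * i = a * j then 0 else
      (u i * w j * (l a * l b)) * (l (a * b * m + b * i) * l (a * b * m + a * j))) := by
    refine Small.sum I (fun i m => ∑ j ∈ J, if b * i = a * j then 0 else
      (u i * w j * (l a * l b)) * (l (a * b * m + b * i) * l (a * b * m + a * j))) fun i _ => ?_
    refine Small.sum J (fun j m => if b * i = a * j then 0 else
      (u i * w j * (l a * l b)) * (l (a * b * m + b * i) * l (a * b * m + a * j))) fun j _ => ?_
    by_cases h2 : b * i = a * j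
    · simpa [h2] using Small.zero
    · simp only [if_neg h2]
      exact (pair (Nat.mul_pos ha hb) h2).const_mul _
  refine h1.of_pos fun m hm => ?_
  unfold stat corr
  rw [sum_mul_sum, mul_sum, ← sum_sub_distrib]
  refine sum_congr rfl fun i _ => ?_
  rw [mul_sum, ← sum_sub_distrib]
  refine sum_congr rfl fun j _ => ?_
  have ha0 : a ≠ 0 := by omega
  have hb0 : b ≠ 0 := by omega
  have h3 : a * m + i ≠ 0 := by
    have := Nat.mul_pos ha hm
    omega
  have h4 : b * m + j ≠ 0 := by
    have := Nat.mul_pos hb hm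
    omega
  have h5 : l (a * b * m + b * i) = l b * l (a * m + i) := by
    rw [← l_mul hb0 h3]
    congr 1
    ring
  have h6 : l (a * b * m + a * j) = l a * l (b * m + j) := by
    rw [← l_mul ha0 h4]
    congr 1
    ring
  have ha2 := l_sq a
  have hb2 := l_sq b
  have hx2 := l_sq (a * m + i)
  split_ifs with h2
  · rw [h2, h6] at h5
    have h7 : l (a * m + i) * l (b * m + j) = l a * l b := by
      linear_combination (-(l (a * m + i) * l (b * m + j))) * ha2 + (l a * l (a * m + i)) * h5 +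
        (l a * l b) * hx2
    linear_combination (u i * w j) * h7
  · rw [h5, h6]
    linear_combination (-(u i * w j * l (a * m + i) * l (b * m + j) * (l a * l a))) * hb2 -
      (u i * w j * l (a * m + i) * l (b * m + j)) * ha2

/-- **the product inequality for linear statistics** -/
theorem gap {a b : ℕ} (ha : 1 ≤ a) (hb : 1 ≤ b) (I J : Finset ℕ) (u w : ℕ → ℝ) {K L : ℝ}
    (hK : 0 ≤ K) (hL : 0 ≤ L) (h : K * L < -corr a b I J u w) :
    LZ {N : ℕ | (((range N).filter (fun m => K < stat u I (a * m))).card : ℝ) +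
        ((range N).filter (fun m => L < stat w J (b * m))).card <
      (-corr a b I J u w - K * L) /
        (2 * ((K + ∑ i ∈ I, |u i|) * (L + ∑ j ∈ J, |w j|))) * N} := by
  refine core (fun m => stat_abs u I (a * m)) (fun m => stat_abs w J (b * m)) hK hL
    (stat_small ha u I) (stat_small hb w J) (prod_small ha hb I J u w) h ?_
  have h1 := corr_abs a b I J u w
  have h2 := neg_le_abs (corr a b I J u w)
  have h3 : 0 ≤ K * L := mul_nonneg hK hL
  have h4 : 0 ≤ ∑ i ∈ I, |u i| := sum_nonneg fun i _ => abs_nonneg _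
  have h5 : 0 ≤ ∑ j ∈ J, |w j| := sum_nonneg fun j _ => abs_nonneg _
  have h6 : 0 ≤ K * ∑ j ∈ J, |w j| := mul_nonneg hK h5
  have h7 : 0 ≤ (∑ i ∈ I, |u i|) * L := mul_nonneg h4 hL
  nlinarith

lemma icc_range (F : ℕ → ℝ) (k : ℕ) : ∑ i ∈ Icc 1 k, F i = ∑ i ∈ range k, F (i + 1) := by
  induction k with
  | zero => simp
  | succ k ih => rw [sum_Icc_succ_top (by omega), ih, sum_range_succ]

lemma blocks (F : ℕ → ℝ) (p n : ℕ) :
    ∑ i ∈ Icc 1 (p * n), F i = ∑ b ∈ range p, ∑ i ∈ Icc 1 n, F (b * n + i) := by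
  induction p with
  | zero => simp
  | succ p ih =>
    rw [sum_range_succ, ← ih, icc_range, icc_range, icc_range, Nat.succ_mul, sum_range_add]
    rfl

lemma per_mul {q : ℕ} {w : ℕ → ℝ} (hw : ∀ j, w (j + q) = w j) (j k : ℕ) : w (j + q * k) = w j := by
  induction k with
  | zero => simp
  | succ k ih => rw [Nat.mul_succ, ← add_assoc, hw, ih]

/-- the diagonal of two dilates of a periodic window -/
lemma diag_coprime {a b : ℕ} (ha : 1 ≤ a) (hb : 1 ≤ b) (hab : Nat.Coprime a b) (n : ℕ) (w : ℕ → ℝ) :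
    ∑ i ∈ Icc 1 (a * n), ∑ j ∈ Icc 1 (b * n), (if b * i = a * j then w i * w j else 0) =
      ∑ k ∈ Icc 1 n, w (a * k) * w (b * k) := by
  rw [← sum_product' (f := fun i j => if b * i = a * j then w i * w j else 0), ← sum_filter]
  symm
  apply sum_bij (fun k _ => (a * k, b * k))
  · intro k hk
    rw [mem_Icc] at hk
    rw [mem_filter, mem_product, mem_Icc, mem_Icc]
    refine ⟨⟨⟨Nat.mul_pos ha hk.1, Nat.mul_le_mul_left a hk.2⟩,
      ⟨Nat.mul_pos hb hk.1, Nat.mul_le_mul_left b hk.2⟩⟩, ?_⟩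
    show b * (a * k) = a * (b * k)
    ring
  · intro k _ k' _ h
    exact Nat.eq_of_mul_eq_mul_left ha (Prod.ext_iff.1 h).1
  · rintro ⟨i, j⟩ hij
    rw [mem_filter, mem_product, mem_Icc, mem_Icc] at hij
    obtain ⟨⟨⟨hi1, hi2⟩, -⟩, h⟩ := hij
    simp only at hi1 hi2 h
    have h1 : a ∣ i := hab.dvd_of_dvd_mul_left (show a ∣ b * i from ⟨j, h⟩)
    obtain ⟨k, rfl⟩ := h1
    have h2 : b * k = j := by
      apply Nat.eq_of_mul_eq_mul_left ha
      rw [← h]
      ring
    refine ⟨k, ?_, ?_⟩
    · rw [mem_Icc]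
      refine ⟨?_, Nat.le_of_mul_le_mul_left hi2 ha⟩
      rcases Nat.eq_zero_or_pos k with h3 | h3
      · subst h3
        simp at hi1
      · exact h3
    · rw [← h2]
  · intro k _
    rfl

/-- the number of the large values of the long statistic at the points `a m` -/
lemma long_card {n a c : ℕ} (ha : 1 ≤ a) (hac : a ≤ c) (w : ℕ → ℝ) (hw : ∀ j, w (j + n) = w j) (κ : ℝ)
    {N : ℕ} (hN : n ≤ N) :
    ((range N).filter (fun m => a * κ < stat w (Icc 1 (a * n)) (a * m))).card ≤
      a * ((range (2 * c * N)).filter (fun m => κ ≤ stat w (Icc 1 n) m)).card := by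
  have hwn : ∀ b i, w (b * n + i) = w i := by
    intro b i
    have h1 := per_mul hw i b
    rw [← h1]
    congr 1
    ring
  have h3 : (range N).filter (fun m => a * κ < stat w (Icc 1 (a * n)) (a * m)) ⊆
      (range a).biUnion (fun b => (range N).filter (fun m => κ ≤ stat w (Icc 1 n) (a * m + b * n))) := by
    intro m hm
    rw [mem_filter] at hm
    rw [mem_biUnion]
    by_contra hno
    push Not at hno
    have h4 : ∀ b ∈ range a, stat w (Icc 1 n) (a * m + b * n) ≤ κ := by
      intro b hb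
      have h5 := hno b hb
      rw [mem_filter] at h5
      by_contra h6
      push Not at h6
      exact h5 ⟨hm.1, h6.le⟩
    have h5 : stat w (Icc 1 (a * n)) (a * m) = ∑ b ∈ range a, stat w (Icc 1 n) (a * m + b * n) := by
      unfold stat
      rw [blocks]
      refine sum_congr rfl fun b _ => sum_congr rfl fun i _ => ?_
      rw [hwn, add_assoc]
    have h6 := sum_le_sum h4
    rw [← h5, sum_const, card_range, nsmul_eq_mul] at h6
    linarith [hm.2]
  refine (card_le_card h3).trans (card_biUnion_le.trans ?_)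
  have h4 : ∀ b ∈ range a, ((range N).filter (fun m => κ ≤ stat w (Icc 1 n) (a * m + b * n))).card ≤
      ((range (2 * c * N)).filter (fun m => κ ≤ stat w (Icc 1 n) m)).card := by
    intro b hb
    rw [mem_range] at hb
    apply card_le_card_of_injOn (fun m => a * m + b * n)
    · intro m hm
      rw [mem_coe, mem_filter, mem_range] at hm
      rw [mem_coe, mem_filter, mem_range]
      refine ⟨?_, hm.2⟩
      have h5 : a * m + a ≤ a * N := by
        have := Nat.mul_le_mul_left a (show m + 1 ≤ N by omega)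
        rw [Nat.mul_add, mul_one] at this
        exact this
      have h6 : b * n ≤ a * N := Nat.mul_le_mul hb.le hN
      have h7 : 2 * c * N = c * N + c * N := by ring
      have h8 : a * N ≤ c * N := Nat.mul_le_mul_right N hac
      show a * m + b * n < 2 * c * N
      omega
    · intro x _ y _ hxy
      have h5 : a * x = a * y := by
        have : a * x + b * n = a * y + b * n := hxy
        omega
      exact Nat.eq_of_mul_eq_mul_left ha h5
  refine (sum_le_sum h4).trans ?_
  rw [sum_const, card_range, smul_eq_mul]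

/-- **periodic weights** -/
theorem periodic {n a b : ℕ} (ha : 1 ≤ a) (hb : 1 ≤ b) (hab : Nat.Coprime a b)
    (w : ℕ → ℝ) (hw : ∀ j, w (j + n) = w j) {κ C : ℝ}
    (hC : C = -(l a * l b * ∑ k ∈ Icc 1 n, w (a * k) * w (b * k))) (hκ0 : 0 ≤ κ)
    (hκ : a * b * κ ^ 2 < C) :
    LZ {N : ℕ | (((range (2 * (a + b) * N)).filter (fun m => κ ≤ stat w (Icc 1 n) m)).card : ℝ) <
      (C - a * b * κ ^ 2) / (2 * a * b * (a + b) * (κ + ∑ j ∈ Icc 1 n, |w j|) ^ 2) * N} := by
  have ha1' : (1 : ℝ) ≤ a := by exact_mod_cast ha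
  have hb1' : (1 : ℝ) ≤ b := by exact_mod_cast hb
  have hwn : ∀ b i, w (b * n + i) = w i := by
    intro b i
    have h1 := per_mul hw i b
    rw [← h1]
    congr 1
    ring
  have hcorr : corr a b (Icc 1 (a * n)) (Icc 1 (b * n)) w w = -C := by
    unfold corr
    rw [diag_coprime ha hb hab, hC]
    ring
  set B : ℝ := ∑ j ∈ Icc 1 n, |w j| with hB
  have hA : ∀ a : ℕ, ∑ i ∈ Icc 1 (a * n), |w i| = a * B := by
    intro a
    rw [blocks]
    simp only [hwn]
    rw [sum_const, card_range, nsmul_eq_mul]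
  have hgap := gap ha hb (Icc 1 (a * n)) (Icc 1 (b * n)) w w (K := a * κ) (L := b * κ) (by positivity)
    (by positivity) (by rw [hcorr]; nlinarith)
  rw [hcorr, hA, hA] at hgap
  refine LZ_mono ?_ (LZ_union hgap (LZ_bdd {N : ℕ | N < n} n fun k hk => hk))
  intro N hN
  by_contra hcon
  have h1 : ¬ ((((range N).filter (fun m => a * κ < stat w (Icc 1 (a * n)) (a * m))).card : ℝ) +
        ((range N).filter (fun m => b * κ < stat w (Icc 1 (b * n)) (b * m))).card <
      (- -C - a * κ * (b * κ)) / (2 * ((a * κ + a * B) * (b * κ + b * B))) * N) := fun h => hcon (Or.inl h)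
  have h2 : ¬ (N < n) := fun h => hcon (Or.inr h)
  have hN' : (((range (2 * (a + b) * N)).filter (fun m => κ ≤ stat w (Icc 1 n) m)).card : ℝ) <
      (C - a * b * κ ^ 2) / (2 * a * b * (a + b) * (κ + B) ^ 2) * N := hN
  push Not at h1 h2
  have hca := long_card (c := a + b) ha (Nat.le_add_right a b) w hw κ h2
  have hcb := long_card (c := a + b) hb (Nat.le_add_left b a) w hw κ h2
  set T : ℕ := ((range (2 * (a + b) * N)).filter (fun m => κ ≤ stat w (Icc 1 n) m)).card with hT
  have hca' : (((range N).filter (fun m => a * κ < stat w (Icc 1 (a * n)) (a * m))).card : ℝ) ≤ a * T := by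
    exact_mod_cast hca
  have hcb' : (((range N).filter (fun m => b * κ < stat w (Icc 1 (b * n)) (b * m))).card : ℝ) ≤ b * T := by
    exact_mod_cast hcb
  have h5 : (- -C - a * κ * (b * κ)) / (2 * ((a * κ + a * B) * (b * κ + b * B))) =
      (a + b) * ((C - a * b * κ ^ 2) / (2 * a * b * (a + b) * (κ + B) ^ 2)) := by
    have h6 : (2 * a * b * (a + b) * (κ + B) ^ 2 : ℝ) =
        (a + b) * (2 * ((a * κ + a * B) * (b * κ + b * B))) := by ring
    have h7 : (- -C - a * κ * (b * κ) : ℝ) = C - a * b * κ ^ 2 := by ring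
    have h8 : (0 : ℝ) < a + b := by linarith
    rw [h6, h7, ← mul_div_assoc, mul_div_mul_left _ _ h8.ne']
  rw [h5] at h1
  have h6 : ((a : ℝ) + b) * T < (a + b) * ((C - a * b * κ ^ 2) / (2 * a * b * (a + b) * (κ + B) ^ 2) * N) :=
    mul_lt_mul_of_pos_left hN' (by linarith)
  nlinarith

end Pool.Agent.Helper66K9.CH
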