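import Pool.Agent.Y842.EL.Dens
import Pool.Agent.Y958.U.Aux1

/-!
Library Helper66K9.CH (helper66): sequences whose averages tend to zero at almost all scales.
-/

set_option autoImplicit false

namespace Pool.Agent.Helper66K9.CH

open Finset
open Pool.Agent.Y958.U (LZ LZ_bdd)
open Pool.Agent.Y842.EL (LZ_mono LZ_union LZ_pull LZ_empty)

/-- the averages of `f` are small at almost all scales -/
def Small (f : ℕ → ℝ) : Prop := ∀ ε : ℝ, 0 < ε → LZ {N : ℕ | ε * N < |∑ m ∈ range N, f m|}

lemma Small.add {f g : ℕ → ℝ} (hf : Small f) (hg : Small g) : Small (fun m => f m + g m) := by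
  intro ε hε
  refine LZ_mono ?_ (LZ_union (hf (ε / 2) (by positivity)) (hg (ε / 2) (by positivity)))
  intro N hN
  by_contra hcon
  have h1 : ¬ (ε / 2 * N < |∑ m ∈ range N, f m|) := fun h => hcon (Or.inl h)
  have h2 : ¬ (ε / 2 * N < |∑ m ∈ range N, g m|) := fun h => hcon (Or.inr h)
  have hN' : ε * N < |∑ m ∈ range N, (f m + g m)| := hN
  rw [sum_add_distrib] at hN'
  have h3 := abs_add_le (∑ m ∈ range N, f m) (∑ m ∈ range N, g m)
  push Not at h1 h2
  linarith

lemma Small.zero : Small (fun _ => 0) := by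
  intro ε hε
  refine LZ_mono ?_ LZ_empty
  intro N hN
  have hN' : ε * N < |∑ m ∈ range N, (0 : ℝ)| := hN
  rw [sum_const_zero, abs_zero] at hN'
  have : 0 ≤ ε * (N : ℝ) := by positivity
  linarith

lemma Small.const_mul {f : ℕ → ℝ} (hf : Small f) (c : ℝ) : Small (fun m => c * f m) := by
  by_cases hc : c = 0
  · subst hc
    simpa using Small.zero
  intro ε hε
  have hc' : 0 < |c| := abs_pos.2 hc
  refine LZ_mono ?_ (hf (ε / |c|) (by positivity))
  intro N hN
  have hN' : ε * N < |∑ m ∈ range N, c * f m| := hN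
  rw [← mul_sum, abs_mul] at hN'
  show ε / |c| * N < |∑ m ∈ range N, f m|
  rw [div_mul_eq_mul_div, div_lt_iff₀ hc']
  linarith

lemma Small.sum {ι : Type} (s : Finset ι) (f : ι → ℕ → ℝ) (h : ∀ i ∈ s, Small (f i)) :
    Small (fun m => ∑ i ∈ s, f i m) := by
  classical
  induction s using Finset.induction_on with
  | empty => simpa using Small.zero
  | insert a s ha ih =>
    simp only [sum_insert ha]
    exact (h a (mem_insert_self a s)).add (ih fun i hi => h i (mem_insert_of_mem hi))

lemma Small.congr {f g : ℕ → ℝ} (hf : Small f) (h : ∀ m, f m = g m) : Small g := by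
  have : f = g := funext h
  rwa [← this]

/-- bounded errors do not matter -/
lemma Small.of_bdd {f g : ℕ → ℝ} (hf : Small f) (C : ℝ)
    (h : ∀ N : ℕ, |∑ m ∈ range N, g m - ∑ m ∈ range N, f m| ≤ C) : Small g := by
  intro ε hε
  obtain ⟨N₁, hN₁⟩ := exists_nat_gt (2 * C / ε)
  refine LZ_mono ?_ (LZ_union (hf (ε / 2) (by positivity))
    (LZ_bdd {N : ℕ | N < N₁} N₁ fun n hn => hn))
  intro N hN
  by_contra hcon
  have h1 : ¬ (ε / 2 * N < |∑ m ∈ range N, f m|) := fun h => hcon (Or.inl h)
  have h2 : ¬ (N < N₁) := fun h => hcon (Or.inr h)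
  have hN' : ε * N < |∑ m ∈ range N, g m| := hN
  push Not at h1 h2
  have h3 : (N₁ : ℝ) ≤ N := by exact_mod_cast h2
  rw [div_lt_iff₀ hε] at hN₁
  have h4 := h N
  have h5 := abs_add_le (∑ m ∈ range N, g m - ∑ m ∈ range N, f m) (∑ m ∈ range N, f m)
  rw [sub_add_cancel] at h5
  nlinarith

/-- the value at zero does not matter -/
lemma Small.of_pos {f g : ℕ → ℝ} (hf : Small f) (h : ∀ m, 1 ≤ m → g m = f m) : Small g := by
  refine hf.of_bdd |g 0 - f 0| fun N => ?_
  rcases N with _ | N
  · simp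
  · rw [sum_range_succ', sum_range_succ' f]
    have : ∑ k ∈ range N, g (k + 1) = ∑ k ∈ range N, f (k + 1) :=
      sum_congr rfl fun k _ => h (k + 1) (by omega)
    rw [this]
    apply le_of_eq
    congr 1
    ring

lemma shift_sum (f : ℕ → ℝ) (hf : ∀ n, |f n| ≤ 1) (a N : ℕ) :
    |∑ n ∈ range N, f (n + a) - ∑ n ∈ range N, f n| ≤ 2 * a := by
  have h1 := sum_range_add f a N
  have h2 := sum_range_add f N a
  rw [add_comm N a, h1] at h2
  have h3 : ∑ n ∈ range N, f (n + a) = ∑ n ∈ range N, f (a + n) :=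
    sum_congr rfl fun n _ => by rw [add_comm]
  have h4 : |∑ n ∈ range a, f (N + n)| ≤ a := by
    refine (abs_sum_le_sum_abs _ _).trans ?_
    refine (sum_le_sum fun n _ => hf (N + n)).trans (by simp)
  have h5 : |∑ n ∈ range a, f n| ≤ a := by
    refine (abs_sum_le_sum_abs _ _).trans ?_
    refine (sum_le_sum fun n _ => hf n).trans (by simp)
  rw [h3]
  rw [abs_le] at h4 h5 ⊢
  constructor <;> linarith [h4.1, h4.2, h5.1, h5.2]

lemma Small.shift {f : ℕ → ℝ} (hf : Small f) (hb : ∀ n, |f n| ≤ 1) (a : ℕ) :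
    Small (fun m => f (m + a)) :=
  hf.of_bdd (2 * a) fun N => shift_sum f hb a N

/-- **van der Corput**: small correlations imply small averages -/
theorem vdc {f : ℕ → ℝ} (hb : ∀ n, |f n| ≤ 1)
    (hp : ∀ h : ℕ, 1 ≤ h → Small (fun m => f m * f (m + h))) : Small f := by
  have hff : ∀ m h, |f m * f (m + h)| ≤ 1 := fun m h => by
    rw [abs_mul]
    exact mul_le_one₀ (hb _) (abs_nonneg _) (hb _)
  intro ε hε
  obtain ⟨H, hH⟩ := exists_nat_gt (8 / ε ^ 2)
  have hε2 : 0 < ε ^ 2 := by positivity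
  have hH0 : (0 : ℝ) < H := lt_trans (by positivity) hH
  rw [div_lt_iff₀ hε2] at hH
  -- the off-diagonal part
  have hoff : Small (fun m => ∑ p ∈ (range H ×ˢ range H).filter (fun p => p.1 ≠ p.2),
      f (m + p.1) * f (m + p.2)) := by
    apply Small.sum
    rintro ⟨i, j⟩ hij
    rw [mem_filter] at hij
    rcases lt_or_gt_of_ne hij.2 with h1 | h1
    · have h2 := (hp (j - i) (by simp only at h1; omega)).shift (fun m => hff m _) i
      refine h2.congr fun m => ?_
      simp only at h1 ⊢
      congr 2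
      omega
    · have h2 := (hp (i - j) (by simp only at h1; omega)).shift (fun m => hff m _) j
      refine h2.congr fun m => ?_
      simp only at h1 ⊢
      rw [mul_comm]
      congr 2
      omega
  obtain ⟨N₁, hN₁⟩ := exists_nat_gt (4 * H / ε)
  refine LZ_mono ?_ (LZ_union (hoff H hH0) (LZ_bdd {N : ℕ | N < N₁} N₁ fun n hn => hn))
  intro N hN
  by_contra hcon
  have h1 : ¬ ((H : ℝ) * N < |∑ m ∈ range N, ∑ p ∈ (range H ×ˢ range H).filter (fun p => p.1 ≠ p.2),
      f (m + p.1) * f (m + p.2)|) := fun h => hcon (Or.inl h)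
  have h2 : ¬ (N < N₁) := fun h => hcon (Or.inr h)
  have hN' : ε * N < |∑ m ∈ range N, f m| := hN
  push Not at h1 h2
  have h3 : (N₁ : ℝ) ≤ N := by exact_mod_cast h2
  rw [div_lt_iff₀ hε] at hN₁
  have hN0 : (0 : ℝ) < N := by
    have : 0 < 4 * (H : ℝ) := by positivity
    nlinarith
  set G : ℕ → ℝ := fun m => ∑ h ∈ range H, f (m + h) with hG
  -- the square of `G`
  have hsq : ∀ m, G m ^ 2 = ∑ h ∈ range H, f (m + h) ^ 2 +
      ∑ p ∈ (range H ×ˢ range H).filter (fun p => p.1 ≠ p.2), f (m + p.1) * f (m + p.2) := by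
    intro m
    simp only [hG]
    rw [sq, sum_mul_sum, ← sum_product', ← sum_filter_add_sum_filter_not (range H ×ˢ range H)
      (fun p => p.1 = p.2)]
    congr 1
    symm
    apply sum_bij (fun h _ => (h, h))
    · intro h hh
      rw [mem_filter, mem_product]
      exact ⟨⟨hh, hh⟩, rfl⟩
    · intro a _ b _ hab
      exact (Prod.ext_iff.1 hab).1
    · rintro ⟨x, y⟩ hxy
      rw [mem_filter, mem_product] at hxy
      obtain ⟨⟨hx, -⟩, hxy⟩ := hxy
      simp only at hxy hx
      subst hxy
      exact ⟨x, hx, rfl⟩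
    · intro h _
      ring
  have hsum : ∑ m ∈ range N, G m ^ 2 ≤ 2 * H * N := by
    simp only [hsq]
    rw [sum_add_distrib]
    have h4 : ∑ m ∈ range N, ∑ h ∈ range H, f (m + h) ^ 2 ≤ H * N := by
      refine (sum_le_sum fun m _ => sum_le_sum fun h _ => ?_).trans (b := ∑ m ∈ range N, ∑ h ∈ range H, (1 : ℝ)) ?_
      · rw [← sq_abs]
        exact pow_le_one₀ (abs_nonneg _) (hb _)
      · simp only [sum_const, card_range, nsmul_eq_mul, mul_one]
        exact le_of_eq (mul_comm _ _)
    have h5 := le_abs_self (∑ m ∈ range N, ∑ p ∈ (range H ×ˢ range H).filter (fun p => p.1 ≠ p.2),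
      f (m + p.1) * f (m + p.2))
    linarith
  have hcs : (∑ m ∈ range N, G m) ^ 2 ≤ N * ∑ m ∈ range N, G m ^ 2 := by
    have := sq_sum_le_card_mul_sum_sq (s := range N) (f := G)
    rwa [card_range] at this
  have hGs : |∑ m ∈ range N, G m - H * ∑ m ∈ range N, f m| ≤ 2 * H * H := by
    simp only [hG]
    rw [sum_comm]
    have h6 : (H : ℝ) * ∑ m ∈ range N, f m = ∑ h ∈ range H, ∑ m ∈ range N, f m := by
      rw [sum_const, card_range, nsmul_eq_mul]
    rw [h6, ← sum_sub_distrib]
    refine (abs_sum_le_sum_abs _ _).trans ?_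
    have h7 : ∀ h ∈ range H, |∑ m ∈ range N, f (m + h) - ∑ m ∈ range N, f m| ≤ 2 * (H : ℝ) := by
      intro h hh
      have h8 : (h : ℝ) ≤ H := by exact_mod_cast (mem_range.1 hh).le
      have h9 := shift_sum f hb h N
      linarith
    refine (sum_le_sum h7).trans ?_
    rw [sum_const, card_range, nsmul_eq_mul]
    exact le_of_eq (by ring)
  -- contradiction
  have h7 : (H : ℝ) * (ε * N) / 2 ≤ |∑ m ∈ range N, G m| := by
    have h8 := abs_sub_abs_le_abs_sub ((H : ℝ) * ∑ m ∈ range N, f m) (∑ m ∈ range N, G m)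
    rw [abs_sub_comm, abs_mul, abs_of_pos hH0] at h8
    have h9 : (H : ℝ) * (ε * N) ≤ H * |∑ m ∈ range N, f m| := mul_le_mul_of_nonneg_left hN'.le hH0.le
    have h10 : 2 * (H : ℝ) * H ≤ H * (ε * N) / 2 := by
      have : 4 * (H : ℝ) ≤ ε * N := by nlinarith
      nlinarith
    linarith
  have h11 : ((H : ℝ) * (ε * N) / 2) ^ 2 ≤ N * (2 * H * N) := by
    have h12 : ((H : ℝ) * (ε * N) / 2) ^ 2 ≤ |∑ m ∈ range N, G m| ^ 2 :=
      pow_le_pow_left₀ (by positivity) h7 2
    rw [sq_abs] at h12
    exact h12.trans (hcs.trans (mul_le_mul_of_nonneg_left hsum hN0.le))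
  have h13 : (H : ℝ) * ε ^ 2 * (H * N ^ 2) ≤ 8 * (H * N ^ 2) := by nlinarith
  have h14 : (H : ℝ) * ε ^ 2 ≤ 8 := le_of_mul_le_mul_right h13 (by positivity)
  linarith

/-- **the product inequality** -/
theorem core {U Z : ℕ → ℝ} {A B K L c : ℝ} (hU : ∀ m, |U m| ≤ A) (hZ : ∀ m, |Z m| ≤ B)
    (hK : 0 ≤ K) (hL : 0 ≤ L) (sU : Small U) (sZ : Small Z)
    (sUZ : Small (fun m => U m * Z m - c)) (hgap : K * L < -c) (hpos : 0 < (K + A) * (L + B)) :
    LZ {N : ℕ | (((range N).filter (fun m => K < U m)).card : ℝ) +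
        ((range N).filter (fun m => L < Z m)).card <
      (-c - K * L) / (2 * ((K + A) * (L + B))) * N} := by
  classical
  set g : ℝ := -c - K * L with hg
  have hg0 : 0 < g := by linarith
  have hA : 0 ≤ A := (abs_nonneg _).trans (hU 0)
  have hB : 0 ≤ B := (abs_nonneg _).trans (hZ 0)
  set e : ℝ := g / (4 * (1 + K + L)) with he
  have he0 : 0 < e := by positivity
  have he1 : (1 + K + L) * e = g / 4 := by
    rw [he]
    field_simp
  refine LZ_mono ?_ (LZ_union (LZ_union (sU e he0) (sZ e he0)) (sUZ e he0))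
  intro N hN
  by_contra hcon
  have h1 : ¬ (e * N < |∑ m ∈ range N, U m|) := fun h => hcon (Or.inl (Or.inl h))
  have h2 : ¬ (e * N < |∑ m ∈ range N, Z m|) := fun h => hcon (Or.inl (Or.inr h))
  have h3 : ¬ (e * N < |∑ m ∈ range N, (U m * Z m - c)|) := fun h => hcon (Or.inr h)
  push Not at h1 h2 h3
  have hN' : (((range N).filter (fun m => K < U m)).card : ℝ) +
        ((range N).filter (fun m => L < Z m)).card <
      g / (2 * ((K + A) * (L + B))) * N := hN
  have hN0 : (0 : ℝ) ≤ N := Nat.cast_nonneg N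
  -- the upper bound
  have hid : ∑ m ∈ range N, (K - U m) * (L - Z m) =
      (K * L + c) * N - K * ∑ m ∈ range N, Z m - L * ∑ m ∈ range N, U m +
        ∑ m ∈ range N, (U m * Z m - c) := by
    rw [sum_sub_distrib, sum_const, card_range, nsmul_eq_mul, mul_sum, mul_sum]
    have : ∀ m, (K - U m) * (L - Z m) = K * L - K * Z m - L * U m + U m * Z m := fun m => by ring
    simp only [this]
    rw [sum_add_distrib, sum_sub_distrib, sum_sub_distrib, sum_const, card_range, nsmul_eq_mul]
    ring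
  have hup : ∑ m ∈ range N, (K - U m) * (L - Z m) ≤ -(g / 2) * N := by
    rw [hid]
    have h4 := (abs_le.1 h1).1
    have h5 := (abs_le.1 h2).1
    have h6 := (abs_le.1 h3).2
    have h7 : -(K * ∑ m ∈ range N, Z m) ≤ K * (e * N) := by nlinarith
    have h8 : -(L * ∑ m ∈ range N, U m) ≤ L * (e * N) := by nlinarith
    have h9 : K * (e * N) + L * (e * N) + e * N = g / 4 * N := by rw [← he1]; ring
    have h10 : (K * L + c) * N = -g * N := by rw [hg]; ring
    have h11 : 0 ≤ g * N := by positivity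
    linarith
  -- the lower bound
  set D : ℝ := (K + A) * (L + B) with hD
  have hlow : -(D * ((((range N).filter (fun m => K < U m)).card : ℝ) +
      ((range N).filter (fun m => L < Z m)).card)) ≤ ∑ m ∈ range N, (K - U m) * (L - Z m) := by
    have h12 : ∀ m ∈ range N, -(D * ((if K < U m then (1 : ℝ) else 0) + (if L < Z m then 1 else 0))) ≤
        (K - U m) * (L - Z m) := by
      intro m _
      have hu := abs_le.1 (hU m)
      have hz := abs_le.1 (hZ m)
      have hneg : -D ≤ (K - U m) * (L - Z m) := by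
        have h13 : |(K - U m) * (L - Z m)| ≤ D := by
          rw [abs_mul, hD]
          apply mul_le_mul
          · rw [abs_le]; constructor <;> linarith
          · rw [abs_le]; constructor <;> linarith
          · exact abs_nonneg _
          · linarith
        exact (abs_le.1 h13).1
      split_ifs with h14 h15 h15
      · linarith
      · linarith
      · linarith
      · push Not at h14 h15
        have : 0 ≤ (K - U m) * (L - Z m) := mul_nonneg (by linarith) (by linarith)
        linarith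
    refine le_trans (le_of_eq ?_) (sum_le_sum h12)
    rw [sum_neg_distrib, ← mul_sum, sum_add_distrib, sum_boole, sum_boole]
  have hfin : D * (g / (2 * D) * N) = g / 2 * N := by
    field_simp
  have h16 := mul_lt_mul_of_pos_left hN' hpos
  rw [hfin] at h16
  linarith

end Pool.Agent.Helper66K9.CH
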