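import Pool.Agent.Helper66K9.CH.Core
import Pool.Agent.Y958.TC.Two
import Pool.Agent.Y304.U.Pw
import Pool.Agent.Y304.U.Avc

/-!
Library Helper66K9.CH (helper66): the two point theorem in progressions, and the mean value of the
Liouville function in progressions.
-/

set_option autoImplicit false

namespace Pool.Agent.Helper66K9.CH

open Finset
open Pool.Agent.H376R2.MR (lam)
open Pool.Agent.TH823.MRS (ExpoSmall expo_lam lam_bdd lam_flip)
open Pool.Agent.Y958.U (LZ LZ_bdd)
open Pool.Agent.Y958.TC (two Av)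
open Pool.Agent.Y842.EL (LZ_mono LZ_union LZ_pull LZ_empty)

/-- the Liouville function -/
noncomputable def l (n : ℕ) : ℝ := (-1 : ℝ) ^ ArithmeticFunction.cardFactors n

lemma lam_real (n : ℕ) : ((lam n : ℤ) : ℝ) = l n := by
  unfold lam l
  push_cast
  rfl

lemma l_abs (n : ℕ) : |l n| = 1 := by
  unfold l
  rw [abs_pow, abs_neg, abs_one, one_pow]

lemma l_mul {m n : ℕ} (hm : m ≠ 0) (hn : n ≠ 0) : l (m * n) = l m * l n := by
  unfold l
  rw [ArithmeticFunction.cardFactors_mul hm hn, pow_add]

lemma l_sq (n : ℕ) : l n * l n = 1 := by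
  unfold l
  rw [← mul_pow]
  norm_num

lemma l_one : l 1 = 1 := by
  unfold l
  simp

lemma l_prime {p : ℕ} (hp : p.Prime) : l p = -1 := by
  unfold l
  rw [ArithmeticFunction.cardFactors_apply_prime hp, pow_one]

lemma sum_prog {A : ℕ} (hA : 1 ≤ A) (N : ℕ) (F : ℕ → ℝ) :
    ∑ n ∈ range (A * N), (if A ∣ n then F n else 0) = ∑ m ∈ range N, F (A * m) := by
  induction N with
  | zero => simp
  | succ N ih =>
    rw [Nat.mul_succ, sum_range_add, ih, sum_range_succ]
    congr 1
    rw [sum_eq_single_of_mem 0 (mem_range.2 hA)]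
    · rw [add_zero, if_pos (dvd_mul_right A N)]
    · intro j hj hj0
      rw [if_neg]
      intro hd
      have h1 := (Nat.dvd_add_right (dvd_mul_right A N)).1 hd
      have h2 := Nat.le_of_dvd (Nat.pos_of_ne_zero hj0) h1
      have h3 := mem_range.1 hj
      omega

/-- two points in a progression -/
theorem pairA {A c d : ℕ} (hA : 1 ≤ A) (hcd : c < d) :
    Small (fun m => l (A * m + c) * l (A * m + d)) := by
  intro ε hε
  set w : ℕ → ℝ := fun n => if n % A = c % A then 1 else 0 with hw
  have hE : ExpoSmall (fun n => (lam n : ℂ)) := fun ε hε A hA => expo_lam ε hε A hA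
  have hA' : (0 : ℝ) < A := by exact_mod_cast hA
  have hA1 : (1 : ℝ) ≤ A := by exact_mod_cast hA
  have h1 := two (Pool.Agent.Y304.U.avc Pool.Agent.Y304.U.pw) lam lam_bdd lam_flip hE (d - c) (by omega) A hA w
    (fun n => by simp only [hw]; split_ifs <;> norm_num)
    (fun n => by simp only [hw, Nat.add_mod_right]) (ε / (2 * A)) (by positivity)
  obtain ⟨N₁, hN₁⟩ := exists_nat_gt (2 * ((ε / (2 * A) + 1) * c) / ε)
  refine LZ_mono ?_ (LZ_union (LZ_pull h1 A c hA) (LZ_bdd {N : ℕ | N < N₁ + 1} (N₁ + 1) fun n hn => hn))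
  intro N hN
  by_contra hcon
  have h2 : ¬ (ε / (2 * A) < |Av (A * N + c) (fun n => w n * lam n * lam (n + (d - c)))|) :=
    fun h => hcon (Or.inl h)
  have h3 : ¬ (N < N₁ + 1) := fun h => hcon (Or.inr h)
  have hN' : ε * N < |∑ m ∈ range N, l (A * m + c) * l (A * m + d)| := hN
  push Not at h2 h3
  have h4 : (N₁ : ℝ) + 1 ≤ N := by exact_mod_cast h3
  have hM : (0 : ℝ) < ((A * N + c : ℕ) : ℝ) := by
    have h5 : 0 < A * N := Nat.mul_pos hA (by omega)
    exact_mod_cast (by omega : 0 < A * N + c)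
  set g : ℕ → ℝ := fun n => l n * l (n + (d - c)) with hg
  have hgb : ∀ n, |g n| ≤ 1 := fun n => by
    simp only [hg]
    rw [abs_mul, l_abs, l_abs, one_mul]
  have h5 : ∑ n ∈ range (A * N + c), w n * lam n * lam (n + (d - c)) =
      ∑ n ∈ range c, w n * g n + ∑ m ∈ range N, l (A * m + c) * l (A * m + d) := by
    have h6 : ∀ n, w n * lam n * lam (n + (d - c)) = w n * g n := fun n => by
      simp only [hg]
      rw [← lam_real, ← lam_real]
      ring
    simp only [h6]
    rw [add_comm (A * N) c, sum_range_add]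
    congr 1
    have h7 : ∀ x ∈ range (A * N), w (c + x) * g (c + x) = if A ∣ x then g (c + x) else 0 := by
      intro x _
      simp only [hw]
      by_cases h8 : A ∣ x
      · rw [if_pos h8, if_pos, one_mul]
        obtain ⟨y, rfl⟩ := h8
        rw [Nat.add_mul_mod_self_left]
      · rw [if_neg h8, if_neg, zero_mul]
        intro h9
        apply h8
        have h10 : c + x ≡ c + 0 [MOD A] := h9
        exact (Nat.modEq_zero_iff_dvd).1 (Nat.ModEq.add_left_cancel' c h10)
    rw [sum_congr rfl h7, sum_prog hA N (fun x => g (c + x))]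
    apply sum_congr rfl
    intro m _
    simp only [hg]
    congr 2 <;> omega
  unfold Av at h2
  rw [h5, abs_div, abs_of_pos hM, div_le_iff₀ hM] at h2
  have h6 : |∑ n ∈ range c, w n * g n| ≤ c := by
    refine (abs_sum_le_sum_abs _ _).trans ?_
    have h7 : ∀ n ∈ range c, |w n * g n| ≤ 1 := by
      intro n _
      rw [abs_mul]
      refine mul_le_one₀ ?_ (abs_nonneg _) (hgb n)
      simp only [hw]
      split_ifs <;> norm_num
    refine (sum_le_sum h7).trans ?_
    simp
  have h7 := abs_sub_abs_le_abs_sub (∑ m ∈ range N, l (A * m + c) * l (A * m + d)) (-∑ n ∈ range c, w n * g n)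
  rw [abs_neg, sub_neg_eq_add, add_comm (∑ m ∈ range N, l (A * m + c) * l (A * m + d))] at h7
  have h8 : ε / (2 * A) * ((A * N + c : ℕ) : ℝ) = ε / 2 * N + ε / (2 * A) * c := by
    push_cast
    field_simp
  rw [h8] at h2
  rw [div_lt_iff₀ hε] at hN₁
  have h9 : ε * (N₁ : ℝ) ≤ ε * N := mul_le_mul_of_nonneg_left (by linarith) hε.le
  nlinarith

/-- two distinct points -/
theorem pair {A c d : ℕ} (hA : 1 ≤ A) (hcd : c ≠ d) :
    Small (fun m => l (A * m + c) * l (A * m + d)) := by
  rcases lt_or_gt_of_ne hcd with h | h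
  · exact pairA hA h
  · exact (pairA hA h).congr fun m => mul_comm _ _

/-- the mean value in a progression -/
theorem mean {A : ℕ} (c : ℕ) (hA : 1 ≤ A) : Small (fun m => l (A * m + c)) := by
  apply vdc
  · intro n
    rw [l_abs]
  · intro h hh
    have h1 : c ≠ A * h + c := by
      have := Nat.mul_pos hA hh
      omega
    refine (pair hA h1).congr fun m => ?_
    show l (A * m + c) * l (A * m + (A * h + c)) = l (A * m + c) * l (A * (m + h) + c)
    congr 2
    ring

end Pool.Agent.Helper66K9.CH
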